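import Pool.Agent.H87.AX.Targets4
import Pool.Agent.H45.SN.EN3

/-!
# The third energy estimate with bad set and tension (row EA3)
-/

set_option autoImplicit false

namespace Pool.Agent.H78.AX

open Pool.Agent.H87.SN Pool.Agent.H87.SH Pool.Agent.H87.AX Pool.Agent.H45.SN
open MeasureTheory Metric Set Filter Topology
open scoped ContDiff RealInnerProductSpace ENNReal

theorem ea3_integrable {d m : ℕ} (G : E (d + 2) → E (d + 2) →L[ℝ] E m)
    (hG : MemLp G 2 (volume.restrict (ball (0 : E (d + 2)) 2))) :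
    Integrable (fun x => nsq (G x)) (volume.restrict (ball (0 : E (d + 2)) 2)) := by
  have h1 : Integrable (fun x => ‖G x‖ ^ 2) (volume.restrict (ball (0 : E (d + 2)) 2)) :=
    (memLp_two_iff_integrable_sq_norm hG.1).1 hG
  have h2 : AEStronglyMeasurable (fun x => nsq (G x))
      (volume.restrict (ball (0 : E (d + 2)) 2)) :=
    Continuous.comp_aestronglyMeasurable (f := G) en3_nsq_continuous hG.1
  apply Integrable.mono' (h1.const_mul ((d + 2 : ℕ) : ℝ)) h2
  filter_upwards with x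
  rw [Real.norm_eq_abs, abs_of_nonneg (en3_nsq_nonneg _)]
  exact en3_nsq_le _

theorem ea3_tau {d : ℕ} (τ : E (d + 2) → ℝ)
    (hτ : MemLp τ 2 (volume.restrict (ball (0 : E (d + 2)) 2))) :
    Integrable (fun x => τ x ^ 2) (volume.restrict (ball (0 : E (d + 2)) 2)) := by
  have h1 := (memLp_two_iff_integrable_sq_norm hτ.1).1 hτ
  simpa using h1

theorem pf_EA3 (hCUT : T_CUT) (hINN : T_INN) (hHET : T_HET) (hEA2 : T_EA2) : T_EA3 := by
  intro d C₀ C₁ M
  obtain ⟨ζ, L, hζs, hζ01, -, hζ1, hζ0, hL, hζg⟩ := hCUT (d + 2) 1 (5 / 4) one_pos (by norm_num)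
  obtain ⟨C, hC, hin⟩ := hINN d M
  obtain ⟨K, hK, hK2⟩ := hEA2 d C₀ C₁ M
  obtain ⟨B, hB⟩ : ∃ B : ℝ, B = 1 + (2 * |C₀| + (4 * C + 4 * (4 * L ^ 2))) := ⟨_, rfl⟩
  have hB0 : 0 ≤ B := by
    rw [hB]
    positivity
  refine ⟨100 * (B * |C₁| * K) + 100 * |C₀|, by positivity, ?_⟩
  intro r hr hr0 hrM η w hW U χ hV m u G τ hN
  obtain ⟨χi, hχ1, hχ01, -, hχ0, hχone, hχg, -⟩ := hin r hr hr0 hrM
  have hE2 := hK2 r hr hr0 hrM η w hW U χ hV m u G τ hN
  have hζ1' : ContDiff ℝ 1 ζ := hζs.of_le (by exact_mod_cast le_top)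
  have hrc : Continuous r := hr.continuous
  -- the cutoff
  obtain ⟨κ, hκ⟩ : ∃ κ : E (d + 2) → ℝ, κ = fun x => ζ x * χi x := ⟨_, rfl⟩
  obtain ⟨ψ, hψ⟩ : ∃ ψ : E (d + 2) → ℝ, ψ = fun x => κ x * χ x := ⟨_, rfl⟩
  have hκd : ContDiff ℝ 1 κ := by
    rw [hκ]
    exact hζ1'.mul hχ1
  have hκnn : ∀ x, 0 ≤ κ x := by
    intro x
    rw [hκ]
    exact mul_nonneg (hζ01 x).1 (hχ01 x).1
  have hκle : ∀ x, κ x ≤ 1 := by
    intro x
    rw [hκ]
    exact mul_le_one₀ (hζ01 x).2 (hχ01 x).1 (hχ01 x).2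
  have hψnn : ∀ x, 0 ≤ ψ x := by
    intro x
    rw [hψ]
    exact mul_nonneg (hκnn x) (hV.bd x).1
  have hψle : ∀ x, ψ x ≤ 1 := by
    intro x
    rw [hψ]
    exact mul_le_one₀ (hκle x) (hV.bd x).1 (hV.bd x).2
  have hκz : ∀ x, ¬ (‖x‖ < 5 / 4 ∧ 9 / 8 * r (zp x) < rho x) → κ x = 0 := by
    intro x hx
    rw [hκ]
    change ζ x * χi x = 0
    by_cases h1 : ‖x‖ < 5 / 4
    · have h2 : rho x ≤ 9 / 8 * r (zp x) := not_lt.1 (fun h => hx ⟨h1, h⟩)
      rw [hχ0 x h2, mul_zero]
    · rw [hζ0 x (not_lt.1 h1), zero_mul]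
  have hψz : ∀ x, ¬ (‖x‖ < 5 / 4 ∧ 9 / 8 * r (zp x) < rho x) → ψ x = 0 := by
    intro x hx
    rw [hψ]
    change κ x * χ x = 0
    rw [hκz x hx, zero_mul]
  have hψd : ContDiff ℝ 1 ψ := by
    rw [contDiff_iff_contDiffAt]
    intro x
    by_cases hx : 0 < rho x
    · have hO : IsOpen {x : E (d + 2) | 0 < rho x} := isOpen_lt continuous_const en3_continuous_rho
      rw [hψ]
      exact hκd.contDiffAt.mul (hV.C1.contDiffAt (hO.mem_nhds hx))
    · have h1 : {y : E (d + 2) | rho y < 9 / 8 * r (zp y)} ∈ 𝓝 x := by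
        refine (isOpen_lt en3_continuous_rho
          (continuous_const.mul (hrc.comp en3_continuous_zp))).mem_nhds ?_
        have h2 := hr0 (zp x)
        change rho x < 9 / 8 * r (zp x)
        have h3 := not_lt.1 hx
        linarith
      have h2 : ψ =ᶠ[𝓝 x] fun _ => (0 : ℝ) := by
        filter_upwards [h1] with y hy
        exact hψz y (fun h => absurd h.2 (not_lt.2 (le_of_lt hy)))
      exact contDiffAt_const.congr_of_eventuallyEq h2
  have hnU : ∀ x, ‖x‖ < 5 / 4 → 9 / 8 * r (zp x) < rho x → x ∉ U → ψ x = 0 := by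
    intro x h1 h2 h3
    have h4 := hr0 (zp x)
    have h5 := (hV.van x (mem_closedBall_zero_iff.2 (by linarith)) (by linarith) h3).self_of_nhds
    rw [hψ]
    change κ x * χ x = 0
    rw [h5, mul_zero]
  have hgz : ∀ x, ψ x = 0 → gsq ψ x = 0 :=
    fun x hx => en3_gsq_eq_zero_of_min ψ x hx hψnn
  have hsub : tsupport ψ ⊆ closedBall 0 (5 / 4) ∩ {x | 9 / 8 * r (zp x) ≤ rho x} := by
    apply closure_minimal
    · intro x hx
      by_contra hcon
      apply hx
      apply hψz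
      rintro ⟨h1, h2⟩
      exact hcon ⟨mem_closedBall_zero_iff.2 h1.le, h2.le⟩
    · exact isClosed_closedBall.inter
        (isClosed_le (continuous_const.mul (hrc.comp en3_continuous_zp)) en3_continuous_rho)
  have hneck : closedBall 0 (5 / 4) ∩ {x | 9 / 8 * r (zp x) ≤ rho x} ⊆ neck r := by
    rintro x ⟨h1, h2⟩
    have h3 : 9 / 8 * r (zp x) ≤ rho x := h2
    have h4 := hr0 (zp x)
    exact ⟨closedBall_subset_ball (by norm_num) h1, by linarith⟩
  have hsubU : tsupport ψ ⊆ U := by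
    intro x hx
    by_contra hxU
    have h1 := hsub hx
    have h2 := (hneck h1).2
    have h3 := hV.van x (closedBall_subset_closedBall (by norm_num) h1.1) h2 hxU
    have h4 : ψ =ᶠ[𝓝 x] fun _ => (0 : ℝ) := by
      filter_upwards [h3] with y hy
      rw [hψ]
      change κ y * χ y = 0
      rw [hy, mul_zero]
    exact (notMem_tsupport_iff_eventuallyEq.2 h4) hx
  obtain ⟨V, hVd⟩ : ∃ V : Set (E (d + 2)), V = U ∩ neck r := ⟨_, rfl⟩
  have hsubV : tsupport ψ ⊆ V := by
    rw [hVd]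
    exact subset_inter hsubU (hsub.trans hneck)
  have hcomp : HasCompactSupport ψ :=
    (isCompact_closedBall (0 : E (d + 2)) (5 / 4)).of_isClosed_subset (isClosed_tsupport ψ)
      (hsub.trans inter_subset_left)
  have hVo : IsOpen V := by
    rw [hVd]
    exact hN.opn.inter (en3_isOpen_neck r hrc)
  have hVU : V ⊆ U := by
    rw [hVd]
    exact inter_subset_left
  have hVn : V ⊆ neck r := by
    rw [hVd]
    exact inter_subset_right
  have hρV : ∀ x ∈ V, 0 < rho x := fun x hx => (hr0 _).trans (hVn hx).2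
  have hwV : ContDiffOn ℝ 1 w V := hW.w_C1.mono (fun x hx => hρV x hx)
  have hwpos : ∀ x ∈ V, 0 < w x := fun x hx => hW.w_pos x (hρV x hx)
  have hτV : MemLp τ 2 (volume.restrict V) :=
    hN.memT.mono_measure (Measure.restrict_mono (hVU.trans hN.sub) le_rfl)
  have hH := hHET d m V u w ψ τ hVo hρV (hN.smooth.mono hVU) hτV hN.tau
    (fun x hx => hN.lapb x (hVU hx)) hwV hwpos
    (fun x hx => hW.P6 x (hVn hx).1 (hVn hx).2) hψd hcomp hsubV
  -- the right-hand side
  have hkc : Continuous (kap η) := by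
    have h1 : Continuous (fun x => fderiv ℝ η x (Pm d x)) :=
      (hW.eta_C1.continuous_fderiv one_ne_zero).clm_apply (Pm d).continuous
    exact h1.neg
  have hae : ∀ᵐ x : E (d + 2), x ∈ U → G x = fderiv ℝ u x :=
    (ae_restrict_iff' hN.opn.measurableSet).1 hN.ae
  have hmemneck : ∀ x : E (d + 2), ‖x‖ < 5 / 4 → 9 / 8 * r (zp x) < rho x → x ∈ neck r :=
    fun x h1 h2 => hneck ⟨mem_closedBall_zero_iff.2 h1.le, h2.le⟩
  -- where the cutoff vanishes
  have hzero : ∀ x, ¬ (‖x‖ < 5 / 4 ∧ 9 / 8 * r (zp x) < rho x ∧ x ∈ U) → ψ x = 0 := by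
    intro x hx
    by_cases h1 : ‖x‖ < 5 / 4 ∧ 9 / 8 * r (zp x) < rho x
    · exact hnU x h1.1 h1.2 (fun h2 => hx ⟨h1.1, h1.2, h2⟩)
    · exact hψz x h1
  have hRHS : ∫ x, (ψ x ^ 2 + rho x ^ 2 * gsq ψ x) * w x * nsq (fderiv ℝ u x) ≤
      B * |C₁| * ∫ x in ball (0 : E (d + 2)) (5 / 4), kap η x * nsq (G x) := by
    rw [← integral_const_mul, ← integral_indicator measurableSet_ball]
    apply integral_mono_of_nonneg
    · filter_upwards with x
      change (0 : ℝ) ≤ (ψ x ^ 2 + rho x ^ 2 * gsq ψ x) * w x * nsq (fderiv ℝ u x)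
      by_cases hx : ‖x‖ < 5 / 4 ∧ 9 / 8 * r (zp x) < rho x ∧ x ∈ U
      · have h1 := hW.w_pos x (hN.pos x hx.2.2)
        have h2 : 0 ≤ gsq ψ x := en3_nsq_nonneg _
        have h3 : 0 ≤ nsq (fderiv ℝ u x) := en3_nsq_nonneg _
        positivity
      · rw [hgz x (hzero x hx), hzero x hx]
        simp
    · rw [integrable_indicator_iff measurableSet_ball]
      exact (en3_integrable G (kap η) hN.memG hkc).const_mul _
    · filter_upwards [hae] with x hGx
      by_cases hx : ‖x‖ < 5 / 4 ∧ 9 / 8 * r (zp x) < rho x ∧ x ∈ U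
      · have hxn := hmemneck x hx.1 hx.2.1
        have hρ := hN.pos x hx.2.2
        have h1 := hW.w_pos x hρ
        have h3 : 0 ≤ nsq (fderiv ℝ u x) := en3_nsq_nonneg _
        have hxb : x ∈ ball (0 : E (d + 2)) (5 / 4) := mem_ball_zero_iff.2 hx.1
        have hk0 : 0 ≤ kap η x := hW.kap_nonneg x hxn.1
        rw [indicator_of_mem hxb, hGx hx.2.2]
        have h4 : w x ≤ C₁ * kap η x := hW.P5b x hxn.1 hxn.2.le
        have h5 : w x ≤ |C₁| * kap η x :=
          h4.trans (mul_le_mul_of_nonneg_right (le_abs_self _) hk0)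
        have h6 : ψ x ^ 2 + rho x ^ 2 * gsq ψ x ≤ B := by
          have h7 : ψ x ^ 2 ≤ 1 := pow_le_one₀ (hψnn x) (hψle x)
          have hO : IsOpen {x : E (d + 2) | 0 < rho x} :=
            isOpen_lt continuous_const en3_continuous_rho
          have hχd : DifferentiableAt ℝ χ x :=
            (hV.C1.contDiffAt (hO.mem_nhds hρ)).differentiableAt one_ne_zero
          have h8 : gsq κ x ≤ 2 * (ζ x ^ 2 * gsq χi x) + 2 * (χi x ^ 2 * gsq ζ x) := by
            rw [hκ]
            exact en3_gsq_mul_le ζ χi x (hζ1'.differentiable one_ne_zero x)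
              (hχ1.differentiable one_ne_zero x)
          have h8' : gsq ψ x ≤ 2 * (κ x ^ 2 * gsq χ x) + 2 * (χ x ^ 2 * gsq κ x) := by
            rw [hψ]
            exact en3_gsq_mul_le κ χ x (hκd.differentiable one_ne_zero x) hχd
          have h9 : ζ x ^ 2 ≤ 1 := pow_le_one₀ (hζ01 x).1 (hζ01 x).2
          have h10 : χi x ^ 2 ≤ 1 := pow_le_one₀ (hχ01 x).1 (hχ01 x).2
          have h9' : κ x ^ 2 ≤ 1 := pow_le_one₀ (hκnn x) (hκle x)
          have h10' : χ x ^ 2 ≤ 1 := pow_le_one₀ (hV.bd x).1 (hV.bd x).2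
          have h11 : rho x ^ 2 * gsq χi x ≤ C := hχg x
          have h12 : gsq ζ x ≤ L ^ 2 := hζg x
          have h11' : rho x ^ 2 * gsq χ x ≤ |C₀| := (hV.gr x hρ).trans (le_abs_self _)
          have h13 : 0 ≤ gsq χi x := en3_nsq_nonneg _
          have h14 : 0 ≤ gsq ζ x := en3_nsq_nonneg _
          have h13' : 0 ≤ gsq χ x := en3_nsq_nonneg _
          have h14' : 0 ≤ gsq κ x := en3_nsq_nonneg _
          have h15 : rho x ^ 2 ≤ 4 := by
            have h16 := en3_rho_le_norm x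
            have h17 : 0 ≤ rho x := hρ.le
            nlinarith [hx.1]
          have h18 : rho x ^ 2 * (ζ x ^ 2 * gsq χi x) ≤ C := by
            calc rho x ^ 2 * (ζ x ^ 2 * gsq χi x) = ζ x ^ 2 * (rho x ^ 2 * gsq χi x) := by ring
              _ ≤ 1 * (rho x ^ 2 * gsq χi x) := by gcongr
              _ ≤ C := by
                rw [one_mul]
                exact h11
          have h19 : rho x ^ 2 * (χi x ^ 2 * gsq ζ x) ≤ 4 * L ^ 2 := by
            calc rho x ^ 2 * (χi x ^ 2 * gsq ζ x) ≤ 4 * (1 * L ^ 2) := by gcongr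
              _ = 4 * L ^ 2 := by ring
          have h20 : rho x ^ 2 * gsq κ x ≤ 2 * C + 2 * (4 * L ^ 2) := by
            calc rho x ^ 2 * gsq κ x ≤
                rho x ^ 2 * (2 * (ζ x ^ 2 * gsq χi x) + 2 * (χi x ^ 2 * gsq ζ x)) := by gcongr
              _ = 2 * (rho x ^ 2 * (ζ x ^ 2 * gsq χi x)) +
                  2 * (rho x ^ 2 * (χi x ^ 2 * gsq ζ x)) := by ring
              _ ≤ 2 * C + 2 * (4 * L ^ 2) := by gcongr
          have h21 : rho x ^ 2 * (κ x ^ 2 * gsq χ x) ≤ |C₀| := by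
            calc rho x ^ 2 * (κ x ^ 2 * gsq χ x) = κ x ^ 2 * (rho x ^ 2 * gsq χ x) := by ring
              _ ≤ 1 * (rho x ^ 2 * gsq χ x) := by gcongr
              _ ≤ |C₀| := by
                rw [one_mul]
                exact h11'
          have h22 : rho x ^ 2 * (χ x ^ 2 * gsq κ x) ≤ 2 * C + 2 * (4 * L ^ 2) := by
            calc rho x ^ 2 * (χ x ^ 2 * gsq κ x) = χ x ^ 2 * (rho x ^ 2 * gsq κ x) := by ring
              _ ≤ 1 * (rho x ^ 2 * gsq κ x) := by gcongr
              _ ≤ _ := by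
                rw [one_mul]
                exact h20
          have h23 : rho x ^ 2 * gsq ψ x ≤
              2 * (rho x ^ 2 * (κ x ^ 2 * gsq χ x)) + 2 * (rho x ^ 2 * (χ x ^ 2 * gsq κ x)) := by
            calc rho x ^ 2 * gsq ψ x ≤
                rho x ^ 2 * (2 * (κ x ^ 2 * gsq χ x) + 2 * (χ x ^ 2 * gsq κ x)) := by gcongr
              _ = _ := by ring
          rw [hB]
          linarith
        calc (ψ x ^ 2 + rho x ^ 2 * gsq ψ x) * w x * nsq (fderiv ℝ u x)
            ≤ B * (|C₁| * kap η x) * nsq (fderiv ℝ u x) := by gcongr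
          _ = B * |C₁| * (kap η x * nsq (fderiv ℝ u x)) := by ring
      · rw [hgz x (hzero x hx), hzero x hx]
        have h0 : ((0 : ℝ) ^ 2 + rho x ^ 2 * 0) * w x * nsq (fderiv ℝ u x) = 0 := by ring
        rw [h0]
        apply indicator_nonneg
        intro y hy
        have hk0 : 0 ≤ kap η y := hW.kap_nonneg y (ball_subset_ball (by norm_num) hy)
        have := en3_nsq_nonneg (G y)
        positivity
  have hRT : ∫ x, ψ x ^ 2 * w x * rho x ^ 2 * τ x ^ 2 ≤
      |C₀| * ∫ x in ball (0 : E (d + 2)) 2, τ x ^ 2 := by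
    rw [← integral_const_mul, ← integral_indicator measurableSet_ball]
    apply integral_mono_of_nonneg
    · filter_upwards with x
      change (0 : ℝ) ≤ ψ x ^ 2 * w x * rho x ^ 2 * τ x ^ 2
      by_cases hx : ‖x‖ < 5 / 4 ∧ 9 / 8 * r (zp x) < rho x ∧ x ∈ U
      · have h1 := hW.w_pos x (hN.pos x hx.2.2)
        positivity
      · rw [hzero x hx]
        simp
    · rw [integrable_indicator_iff measurableSet_ball]
      exact (ea3_tau τ hN.memT).const_mul _
    · filter_upwards with x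
      by_cases hx : ‖x‖ < 5 / 4 ∧ 9 / 8 * r (zp x) < rho x ∧ x ∈ U
      · have hxn := hmemneck x hx.1 hx.2.1
        have hρ := hN.pos x hx.2.2
        have h1 := hW.w_pos x hρ
        rw [indicator_of_mem hxn.1]
        have h2 : rho x ^ 2 * w x ≤ |C₀| := (hW.P7a x hxn.1 hρ).trans (le_abs_self _)
        have h3 : ψ x ^ 2 ≤ 1 := pow_le_one₀ (hψnn x) (hψle x)
        calc ψ x ^ 2 * w x * rho x ^ 2 * τ x ^ 2 = ψ x ^ 2 * (rho x ^ 2 * w x) * τ x ^ 2 := by ring
          _ ≤ 1 * |C₀| * τ x ^ 2 := by gcongr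
          _ = |C₀| * τ x ^ 2 := by ring
      · rw [hzero x hx]
        have h0 : (0 : ℝ) ^ 2 * w x * rho x ^ 2 * τ x ^ 2 = 0 := by ring
        rw [h0]
        apply indicator_nonneg
        intro y _
        positivity
  -- the left-hand side
  have hhc : ContinuousOn (hsq u) V := by
    have h1 : ContDiffOn ℝ 1 (fderiv ℝ u) V := by
      have h0 : ContDiffOn ℝ ∞ (fderiv ℝ u) V :=
        (hN.smooth.mono hVU).fderiv_of_isOpen hVo le_rfl
      exact h0.of_le (by exact_mod_cast le_top)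
    have h2 : ContinuousOn (fderiv ℝ (fderiv ℝ u)) V :=
      h1.continuousOn_fderiv_of_isOpen hVo le_rfl
    unfold hsq
    fun_prop
  have hnn : ∀ x, 0 ≤ ψ x ^ 2 * rho x ^ 2 * w x * hsq u x := by
    intro x
    have h1 : 0 ≤ hsq u x :=
      Finset.sum_nonneg fun i _ => Finset.sum_nonneg fun j _ => sq_nonneg _
    by_cases hx : ‖x‖ < 5 / 4 ∧ 9 / 8 * r (zp x) < rho x ∧ x ∈ U
    · have h2 := hW.w_pos x (hN.pos x hx.2.2)
      positivity
    · rw [hzero x hx]
      simp
  have hint : Integrable (fun x => ψ x ^ 2 * rho x ^ 2 * w x * hsq u x) := by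
    have hts : tsupport (fun x => ψ x ^ 2 * rho x ^ 2 * w x * hsq u x) ⊆ tsupport ψ := by
      apply closure_mono
      intro x hx hx0
      apply hx
      change ψ x ^ 2 * rho x ^ 2 * w x * hsq u x = 0
      rw [hx0]
      ring
    apply Continuous.integrable_of_hasCompactSupport
    · apply ContinuousOn.continuous_of_tsupport_subset (s := V) _ hVo
        (hts.trans hsubV)
      have h1 : ContinuousOn ψ V := hψd.continuous.continuousOn
      have h2 : ContinuousOn (fun x : E (d + 2) => rho x) V :=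
        en3_continuous_rho.continuousOn
      exact (((h1.pow 2).mul (h2.pow 2)).mul hwV.continuousOn).mul hhc
    · exact hcomp.of_isClosed_subset (isClosed_tsupport _) hts
  have hSo : IsOpen {x : E (d + 2) | x ∈ ball (0 : E (d + 2)) 1 ∧ 2 * r (zp x) < rho x} :=
    isOpen_ball.inter
      (isOpen_lt (continuous_const.mul (hrc.comp en3_continuous_zp)) en3_continuous_rho)
  have hIG := ea3_integrable G hN.memG
  have hIT := ea3_tau τ hN.memT
  have hIT' : ∫ x in ball (0 : E (d + 2)) 2, τ x ^ 2 ≤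
      ∫ x in ball (0 : E (d + 2)) 2, (nsq (G x) + τ x ^ 2) := by
    refine integral_mono hIT (hIG.add hIT) fun x => ?_
    have := en3_nsq_nonneg (G x)
    change τ x ^ 2 ≤ nsq (G x) + τ x ^ 2
    linarith
  calc ∫⁻ x in {x | x ∈ ball (0 : E (d + 2)) 1 ∧ 2 * r (zp x) < rho x},
      ENNReal.ofReal (χ x ^ 2 * (rho x ^ 2 * w x * hsq u x))
      = ∫⁻ x in {x | x ∈ ball (0 : E (d + 2)) 1 ∧ 2 * r (zp x) < rho x},
        ENNReal.ofReal (ψ x ^ 2 * rho x ^ 2 * w x * hsq u x) := by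
        apply setLIntegral_congr_fun hSo.measurableSet
        intro x hx
        have h1 : ψ x = χ x := by
          rw [hψ]
          change κ x * χ x = χ x
          rw [hκ]
          change ζ x * χi x * χ x = χ x
          rw [hζ1 x (mem_ball_zero_iff.1 hx.1).le, hχone x hx.2.le, one_mul, one_mul]
        change ENNReal.ofReal (χ x ^ 2 * (rho x ^ 2 * w x * hsq u x)) =
          ENNReal.ofReal (ψ x ^ 2 * rho x ^ 2 * w x * hsq u x)
        rw [h1]
        congr 1
        ring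
    _ ≤ ∫⁻ x, ENNReal.ofReal (ψ x ^ 2 * rho x ^ 2 * w x * hsq u x) :=
        setLIntegral_le_lintegral _ _
    _ = ENNReal.ofReal (∫ x, ψ x ^ 2 * rho x ^ 2 * w x * hsq u x) :=
        (ofReal_integral_eq_lintegral_ofReal hint (Eventually.of_forall hnn)).symm
    _ ≤ _ := by
        apply ENNReal.ofReal_le_ofReal
        calc ∫ x, ψ x ^ 2 * rho x ^ 2 * w x * hsq u x
            ≤ 100 * (∫ x, (ψ x ^ 2 + rho x ^ 2 * gsq ψ x) * w x * nsq (fderiv ℝ u x)) +
              100 * ∫ x, ψ x ^ 2 * w x * rho x ^ 2 * τ x ^ 2 := hH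
          _ ≤ 100 * (B * |C₁| * ∫ x in ball (0 : E (d + 2)) (5 / 4), kap η x * nsq (G x)) +
              100 * (|C₀| * ∫ x in ball (0 : E (d + 2)) 2, τ x ^ 2) := by
              gcongr
          _ ≤ 100 * (B * |C₁| * (K * ∫ x in ball (0 : E (d + 2)) 2, (nsq (G x) + τ x ^ 2))) +
              100 * (|C₀| * ∫ x in ball (0 : E (d + 2)) 2, (nsq (G x) + τ x ^ 2)) := by
              gcongr
          _ = _ := by ring

end Pool.Agent.H78.AX
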