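import Pool.Agent.H87.AX.Targets4
import Pool.Agent.H45.SN.EN3
import Pool.Agent.H87.SN.CSF
import Pool.Agent.H14.SN.ROT

/-!
# The neck estimate in the plane, with tension (row NC2)
-/

set_option autoImplicit false

namespace Pool.Agent.H78.AX

open Pool.Agent.H87.SN Pool.Agent.H87.SH Pool.Agent.H87.AX Pool.Agent.H45.SN
open MeasureTheory Metric Set Filter Topology
open scoped ContDiff RealInnerProductSpace ENNReal

theorem nc2_rho (x : E (0 + 2)) : rho x = ‖x‖ := by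
  unfold rho
  rw [EuclideanSpace.norm_eq, Fin.sum_univ_succ, Fin.sum_univ_succ]
  have h2 : (Fin.succ 0 : Fin (0 + 2)) = 1 := rfl
  rw [h2]
  simp

theorem nc2_en_nonneg {n m : ℕ} (v : E n → E m) (x : E n) : 0 ≤ en v x := en3_nsq_nonneg _

theorem nc2_norm_sq_le (hLA3 : T_LA3) {n m : ℕ} (L : E n →L[ℝ] E m) : ‖L‖ ^ 2 ≤ nsq L := by
  have h1 : ‖L‖ ≤ Real.sqrt (nsq L) := by
    refine L.opNorm_le_bound (Real.sqrt_nonneg _) fun v => ?_
    have h2 := hLA3.1 n m L v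
    have h3 : ‖L v‖ = Real.sqrt (‖L v‖ ^ 2) := (Real.sqrt_sq (norm_nonneg _)).symm
    rw [h3]
    calc Real.sqrt (‖L v‖ ^ 2) ≤ Real.sqrt (‖v‖ ^ 2 * nsq L) := Real.sqrt_le_sqrt h2
      _ = Real.sqrt (nsq L) * ‖v‖ := by
        rw [Real.sqrt_mul (sq_nonneg _), Real.sqrt_sq (norm_nonneg _), mul_comm]
  calc ‖L‖ ^ 2 ≤ Real.sqrt (nsq L) ^ 2 := pow_le_pow_left₀ (norm_nonneg _) h1 2
    _ = nsq L := Real.sq_sqrt (en3_nsq_nonneg _)

theorem nc2_apply_le (hLA3 : T_LA3) {n m : ℕ} (L : E n →L[ℝ] E m) (v : E n) :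
    ‖L v‖ ≤ Real.sqrt (nsq L) * ‖v‖ := by
  have h2 := hLA3.1 n m L v
  have h3 : ‖L v‖ = Real.sqrt (‖L v‖ ^ 2) := (Real.sqrt_sq (norm_nonneg _)).symm
  rw [h3]
  calc Real.sqrt (‖L v‖ ^ 2) ≤ Real.sqrt (‖v‖ ^ 2 * nsq L) := Real.sqrt_le_sqrt h2
    _ = Real.sqrt (nsq L) * ‖v‖ := by
      rw [Real.sqrt_mul (sq_nonneg _), Real.sqrt_sq (norm_nonneg _), mul_comm]

/-- the second derivative along the rotation field -/
theorem nc2_uthth {m : ℕ} {U : Set (E (0 + 2))} (hU : IsOpen U) {v : E (0 + 2) → E m}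
    (hv : ContDiffOn ℝ ∞ v U) {x : E (0 + 2)} (hx : x ∈ U) :
    uthth v x = fderiv ℝ (fderiv ℝ v) x (Jm 0 x) (Jm 0 x) + fderiv ℝ v x (Jm 0 (Jm 0 x)) := by
  have h1 : ContDiffOn ℝ ∞ (fderiv ℝ v) U := hv.fderiv_of_isOpen hU (by norm_num)
  have h2 : DifferentiableAt ℝ (fderiv ℝ v) x :=
    (h1.differentiableOn (by simp)).differentiableAt (hU.mem_nhds hx)
  have h3 : HasFDerivAt (fun y => fderiv ℝ v y (Jm 0 y))
      ((fderiv ℝ v x).comp (Jm 0) + (fderiv ℝ (fderiv ℝ v) x).flip (Jm 0 x)) x :=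
    h2.hasFDerivAt.clm_apply (Jm 0).hasFDerivAt
  unfold uthth
  have h4 : uth v = fun y => fderiv ℝ v y (Jm 0 y) := rfl
  rw [h4, h3.fderiv]
  simp only [add_apply, ContinuousLinearMap.comp_apply,
    ContinuousLinearMap.flip_apply]
  rw [add_comm]

/-- integrability of the energy density -/
theorem nc2_int {m : ℕ} {Λ : ℝ} (hΛ : 0 ≤ Λ) {v : E (0 + 2) → E m}
    (hv : ContDiffOn ℝ ∞ v (ball 0 2)) (he : engy v (ball 0 2) ≤ ENNReal.ofReal Λ) :
    Integrable (fun x => en v x) (volume.restrict (ball (0 : E (0 + 2)) 2)) ∧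
    ∫ x in ball (0 : E (0 + 2)) 2, en v x ≤ Λ := by
  have h1 : ContinuousOn (fderiv ℝ v) (ball 0 2) :=
    (hv.fderiv_of_isOpen isOpen_ball (by norm_num) : ContDiffOn ℝ ∞ (fderiv ℝ v) _).continuousOn
  have h2 : ContinuousOn (fun x => en v x) (ball 0 2) :=
    Continuous.comp_continuousOn en3_nsq_continuous h1
  have h3 : AEStronglyMeasurable (fun x => en v x) (volume.restrict (ball (0 : E (0 + 2)) 2)) :=
    h2.aestronglyMeasurable measurableSet_ball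
  have h4 : 0 ≤ᵐ[volume.restrict (ball (0 : E (0 + 2)) 2)] fun x => en v x :=
    Eventually.of_forall fun x => nc2_en_nonneg v x
  refine ⟨⟨h3, ?_⟩, ?_⟩
  · rw [hasFiniteIntegral_iff_ofReal h4]
    exact lt_of_le_of_lt he ENNReal.ofReal_lt_top
  · rw [integral_eq_lintegral_of_nonneg_ae h4 h3]
    exact ENNReal.toReal_le_of_le_ofReal hΛ he

/-- stationarity up to the tension -/
theorem nc2_stat (hLA3 : T_LA3) (hSTT : T_STT) {m : ℕ} {v : E (0 + 2) → E m}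
    (hv : ContDiffOn ℝ ∞ v (ball 0 2)) (T₁ : ℝ) (hT : 1 ≤ T₁)
    (htan : ∀ x ∈ ball (0 : E (0 + 2)) 2, ∀ h : E (0 + 2), |⟪fderiv ℝ v x h, lap v x⟫| ≤
      1 * (1 + Real.sqrt (en v x)) * ‖fderiv ℝ v x h‖)
    (hi : Integrable (fun x => en v x) (volume.restrict (ball (0 : E (0 + 2)) 2)))
    (hi2 : Integrable (fun x => (T₁ * (1 + Real.sqrt (en v x))) ^ 2)
      (volume.restrict (ball (0 : E (0 + 2)) 2)))
    (hm : AEStronglyMeasurable (fun x => T₁ * (1 + Real.sqrt (en v x)))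
      (volume.restrict (ball (0 : E (0 + 2)) 2))) :
    StatT (fderiv ℝ v) (fun x => T₁ * (1 + Real.sqrt (en v x))) := by
  intro X hX hXc hXs
  rw [hSTT (0 + 2) m (ball 0 2) v isOpen_ball hv X hX hXc hXs, abs_mul,
    abs_of_pos (by norm_num : (0 : ℝ) < 2)]
  refine mul_le_mul_of_nonneg_left ?_ (by norm_num)
  obtain ⟨c, hc⟩ := hXc.exists_bound_of_continuous hX.continuous
  have hc0 : 0 ≤ c := (norm_nonneg _).trans (hc 0)
  have hX0 : ∀ x, x ∉ ball (0 : E (0 + 2)) 2 → X x = 0 := fun x hx =>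
    image_eq_zero_of_notMem_tsupport fun h => hx (hXs h)
  have hgm : AEStronglyMeasurable (fun x => T₁ * (1 + Real.sqrt (en v x)) *
      (Real.sqrt (nsq (fderiv ℝ v x)) * ‖X x‖)) (volume.restrict (ball (0 : E (0 + 2)) 2)) := by
    refine hm.mul (AEStronglyMeasurable.mul ?_ hX.continuous.norm.aestronglyMeasurable)
    exact Real.continuous_sqrt.comp_aestronglyMeasurable hi.1
  have hg : Integrable (fun x => T₁ * (1 + Real.sqrt (en v x)) *
      (Real.sqrt (nsq (fderiv ℝ v x)) * ‖X x‖)) (volume.restrict (ball (0 : E (0 + 2)) 2)) := by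
    refine Integrable.mono' ((hi2.add hi).const_mul c) hgm (Eventually.of_forall fun x => ?_)
    have h1 : 0 ≤ Real.sqrt (en v x) := Real.sqrt_nonneg _
    have h2 : Real.sqrt (en v x) ^ 2 = en v x := Real.sq_sqrt (nc2_en_nonneg v x)
    have h3 : Real.sqrt (nsq (fderiv ℝ v x)) = Real.sqrt (en v x) := rfl
    have h4 : 0 ≤ T₁ * (1 + Real.sqrt (en v x)) := by positivity
    rw [Real.norm_eq_abs, abs_of_nonneg (by positivity), h3]
    change _ ≤ c * ((T₁ * (1 + Real.sqrt (en v x))) ^ 2 + en v x)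
    calc T₁ * (1 + Real.sqrt (en v x)) * (Real.sqrt (en v x) * ‖X x‖)
        ≤ T₁ * (1 + Real.sqrt (en v x)) * (Real.sqrt (en v x) * c) := by
          gcongr
          exact hc x
      _ = c * (T₁ * (1 + Real.sqrt (en v x)) * Real.sqrt (en v x)) := by ring
      _ ≤ c * ((T₁ * (1 + Real.sqrt (en v x))) ^ 2 + en v x) := by
          refine mul_le_mul_of_nonneg_left ?_ hc0
          have h5 : T₁ * (1 + Real.sqrt (en v x)) * Real.sqrt (en v x) ≤
              (T₁ * (1 + Real.sqrt (en v x))) ^ 2 + Real.sqrt (en v x) ^ 2 := by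
            nlinarith [sq_nonneg (T₁ * (1 + Real.sqrt (en v x)) - Real.sqrt (en v x)),
              mul_nonneg h4 h1]
          rwa [h2] at h5
  refine abs_integral_le_integral_abs.trans ?_
  rw [← integral_indicator measurableSet_ball]
  refine integral_mono_of_nonneg (Eventually.of_forall fun x => abs_nonneg _)
    ((integrable_indicator_iff measurableSet_ball).2 hg) (Eventually.of_forall fun x => ?_)
  by_cases hx : x ∈ ball (0 : E (0 + 2)) 2
  · rw [indicator_of_mem hx]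
    change |⟪fderiv ℝ v x (X x), lap v x⟫| ≤ T₁ * (1 + Real.sqrt (en v x)) *
      (Real.sqrt (nsq (fderiv ℝ v x)) * ‖X x‖)
    refine (htan x hx (X x)).trans ?_
    have h1 : 0 ≤ Real.sqrt (en v x) := Real.sqrt_nonneg _
    have h2 := nc2_apply_le hLA3 (fderiv ℝ v x) (X x)
    gcongr
  · rw [indicator_of_notMem hx]
    change |⟪fderiv ℝ v x (X x), lap v x⟫| ≤ 0
    rw [hX0 x hx, map_zero, inner_zero_left, abs_zero]

theorem nc2_core (hLA3 : T_LA3) (hSTT : T_STT) (hPR1 : T_PR1) (hPRW : T_PRW) (hIN1 : T_IN1)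
    (hEA3 : T_EA3) (m : ℕ) (L : ℝ) (hL : 0 ≤ L) : ∃ δ : ℝ, 0 < δ ∧ ∀ Λ : ℝ, 0 ≤ Λ → ∃ K : ℝ,
    0 ≤ K ∧ ∀ (v : E (0 + 2) → E m) (a : ℝ), ContDiffOn ℝ ∞ v (ball 0 2) →
    (∀ x ∈ ball (0 : E (0 + 2)) 2, ‖lap v x‖ ≤ L * (1 + en v x)) →
    (∀ x ∈ ball (0 : E (0 + 2)) 2, ∀ h : E (0 + 2), |⟪fderiv ℝ v x h, lap v x⟫| ≤
      1 * (1 + Real.sqrt (en v x)) * ‖fderiv ℝ v x h‖) →
    (∀ x ∈ ball (0 : E (0 + 2)) 2, ∀ h k : E (0 + 2),
      |⟪fderiv ℝ (fderiv ℝ v) x h h + fderiv ℝ v x k, lap v x⟫| ≤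
        L * ‖fderiv ℝ v x h‖ ^ 2 * en v x +
        1 * (1 + Real.sqrt (en v x)) * ‖fderiv ℝ (fderiv ℝ v) x h h + fderiv ℝ v x k‖) →
    engy v (ball 0 2) ≤ ENNReal.ofReal Λ → 0 < a → a ≤ 1 →
    (∀ x ∈ ball (0 : E (0 + 2)) 2, a < ‖x‖ → ‖x‖ ^ 2 * en v x ≤ δ ^ 2) →
    hInt v (ball 0 1 \ closedBall 0 (2 * a)) ≤ ENNReal.ofReal K := by
  obtain ⟨C₀, hC₀, hP⟩ := hPR1 0 1 0 one_pos le_rfl
  obtain ⟨K₃, hK₃, hE⟩ := hEA3 0 C₀ 4 0
  obtain ⟨C₂, hC₂, hI⟩ := hIN1 0 1 C₀ one_pos le_rfl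
  refine ⟨1 / (4 * (1 + L)), by positivity, fun Λ hΛ => ?_⟩
  obtain ⟨T₁, hT₁⟩ : ∃ T₁ : ℝ, T₁ = 1 + 2 * L := ⟨_, rfl⟩
  obtain ⟨Vb, hVb⟩ : ∃ Vb : ℝ, Vb = (volume (ball (0 : E (0 + 2)) 2)).toReal := ⟨_, rfl⟩
  have hVb0 : 0 ≤ Vb := by
    rw [hVb]
    exact ENNReal.toReal_nonneg
  obtain ⟨A, hA⟩ : ∃ A : ℝ, A = K₃ * (Λ + 2 * T₁ ^ 2 * (Vb + Λ)) := ⟨_, rfl⟩
  have hA0 : 0 ≤ A := by
    rw [hA]
    positivity
  refine ⟨Real.sqrt (A * C₂), Real.sqrt_nonneg _, ?_⟩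
  intro v a hv hlap htan hang he ha0 ha1 hneck
  have hT0 : 1 ≤ T₁ := by rw [hT₁]; linarith
  set r : E 0 → ℝ := fun _ => a with hr
  have hrC : ContDiff ℝ 1 r := contDiff_const
  have hrf : ∀ z, fderiv ℝ r z = 0 := fun z => by rw [hr]; exact fderiv_const_apply a
  obtain ⟨H, W, hProf, hWb⟩ := hP r hrC (fun z => ⟨ha0, ha1⟩) (fun z => by
    rw [hrf, norm_zero, zero_mul])
  obtain ⟨η, hW⟩ := hPRW 0 r C₀ H W hrC.continuous (fun z => ha0) hProf
  obtain ⟨hie, hieΛ⟩ := nc2_int hΛ hv he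
  have hfc : ContinuousOn (fderiv ℝ v) (ball 0 2) :=
    (hv.fderiv_of_isOpen isOpen_ball (by norm_num) : ContDiffOn ℝ ∞ (fderiv ℝ v) _).continuousOn
  have hGm : AEStronglyMeasurable (fderiv ℝ v) (volume.restrict (ball (0 : E (0 + 2)) 2)) :=
    hfc.aestronglyMeasurable measurableSet_ball
  have hG2 : MemLp (fderiv ℝ v) 2 (volume.restrict (ball (0 : E (0 + 2)) 2)) := by
    rw [memLp_two_iff_integrable_sq_norm hGm]
    refine Integrable.mono' hie (hGm.norm.pow 2) (Eventually.of_forall fun x => ?_)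
    rw [Real.norm_eq_abs, abs_of_nonneg (sq_nonneg _)]
    exact nc2_norm_sq_le hLA3 _
  -- the tension
  set τ : E (0 + 2) → ℝ := fun x => T₁ * (1 + Real.sqrt (en v x)) with hτ
  have hτ0 : ∀ x, 0 ≤ τ x := fun x => by
    have := Real.sqrt_nonneg (en v x)
    simp only [hτ]
    positivity
  have hτm : AEStronglyMeasurable τ (volume.restrict (ball (0 : E (0 + 2)) 2)) :=
    ((Real.continuous_sqrt.comp_aestronglyMeasurable hie.1).const_add 1).const_mul T₁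
  have hfin : IsFiniteMeasure (volume.restrict (ball (0 : E (0 + 2)) 2)) :=
    ⟨by rw [Measure.restrict_apply_univ]; exact measure_ball_lt_top⟩
  have hi1 : Integrable (fun x => 2 * T₁ ^ 2 * (1 + en v x))
      (volume.restrict (ball (0 : E (0 + 2)) 2)) :=
    ((integrable_const (1 : ℝ)).add hie).const_mul _
  have hτsq : ∀ x, τ x ^ 2 ≤ 2 * T₁ ^ 2 * (1 + en v x) := by
    intro x
    have h2 : Real.sqrt (en v x) ^ 2 = en v x := Real.sq_sqrt (nc2_en_nonneg v x)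
    simp only [hτ]
    rw [mul_pow]
    calc T₁ ^ 2 * (1 + Real.sqrt (en v x)) ^ 2 ≤ T₁ ^ 2 * (2 * (1 + Real.sqrt (en v x) ^ 2)) := by
          refine mul_le_mul_of_nonneg_left ?_ (sq_nonneg _)
          nlinarith [sq_nonneg (1 - Real.sqrt (en v x))]
      _ = 2 * T₁ ^ 2 * (1 + en v x) := by rw [h2]; ring
  have hiτ : Integrable (fun x => τ x ^ 2) (volume.restrict (ball (0 : E (0 + 2)) 2)) := by
    refine Integrable.mono' hi1 (hτm.pow 2) (Eventually.of_forall fun x => ?_)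
    rw [Real.norm_eq_abs, abs_of_nonneg (sq_nonneg _)]
    exact hτsq x
  have hτ2 : MemLp τ 2 (volume.restrict (ball (0 : E (0 + 2)) 2)) := by
    rw [memLp_two_iff_integrable_sq_norm hτm]
    simpa using hiτ
  have hU : IsOpen (neck r : Set (E (0 + 2))) := en3_isOpen_neck r hrC.continuous
  have hρU : ∀ x ∈ (neck r : Set (E (0 + 2))), 0 < rho x := fun x hx => ha0.trans hx.2
  have hRF := Pool.Agent.H14.SN.pf_ROT 0
  have hδ : ∀ x ∈ (neck r : Set (E (0 + 2))),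
      rho x ^ 2 * en v x ≤ (1 / (4 * (1 + L))) ^ 2 := by
    intro x hx
    rw [nc2_rho]
    exact hneck x hx.1 (by rw [← nc2_rho]; exact hx.2)
  have hδ1 : 16 * L ^ 2 * (1 / (4 * (1 + L))) ^ 2 ≤ 1 := by
    have h1 : 0 < (4 * (1 + L)) ^ 2 := by positivity
    rw [div_pow, one_pow, mul_one_div, div_le_one h1]
    nlinarith
  have hδ2 : 8 * L * (1 / (4 * (1 + L))) ^ 2 ≤ 1 := by
    have h1 : 0 < (4 * (1 + L)) ^ 2 := by positivity
    rw [div_pow, one_pow, mul_one_div, div_le_one h1]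
    nlinarith
  have hTen : TenData 0 m (neck r) v (fderiv ℝ v) τ := by
    refine ⟨hG2, hτ2, hτ0, nc2_stat hLA3 hSTT hv T₁ hT0 htan hie hiτ hτm, hU, ?_,
      fun x hx => hx.1, hρU, hv.mono fun x hx => hx.1, Eventually.of_forall fun x => rfl, ?_, ?_⟩
    · intro θ x hx
      refine ⟨?_, ?_⟩
      · rw [mem_ball_zero_iff, hRF.norm]
        exact mem_ball_zero_iff.1 hx.1
      · rw [hRF.rho, hRF.zp]
        exact hx.2
    · intro x hx
      have h1 := hlap x hx.1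
      have h2 := hδ x hx
      have h3 := nc2_en_nonneg v x
      have h4 : 0 ≤ rho x ^ 2 := sq_nonneg _
      have h5 : ‖lap v x‖ ^ 2 ≤ (L * (1 + en v x)) ^ 2 := pow_le_pow_left₀ (norm_nonneg _) h1 2
      have h6 : T₁ ^ 2 ≤ τ x ^ 2 := by
        refine pow_le_pow_left₀ (by linarith) ?_ 2
        simp only [hτ]
        have := Real.sqrt_nonneg (en v x)
        nlinarith
      have h7 : 2 * L ^ 2 ≤ T₁ ^ 2 := by rw [hT₁]; nlinarith
      change ‖lap v x‖ ^ 2 * rho x ^ 2 ≤ 1 / 8 * en v x + rho x ^ 2 * τ x ^ 2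
      have h8 : rho x ^ 2 * (2 * L ^ 2) ≤ rho x ^ 2 * τ x ^ 2 :=
        mul_le_mul_of_nonneg_left (h7.trans h6) h4
      have h9 : ‖lap v x‖ ^ 2 * rho x ^ 2 ≤ (L * (1 + en v x)) ^ 2 * rho x ^ 2 :=
        mul_le_mul_of_nonneg_right h5 h4
      have h10 : (L * (1 + en v x)) ^ 2 * rho x ^ 2 ≤
          rho x ^ 2 * (2 * L ^ 2) + 2 * L ^ 2 * en v x * (rho x ^ 2 * en v x) := by
        nlinarith [mul_nonneg (mul_nonneg (sq_nonneg L) h4) (sq_nonneg (1 - en v x))]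
      have h11 : 2 * L ^ 2 * en v x * (rho x ^ 2 * en v x) ≤
          2 * L ^ 2 * en v x * (1 / (4 * (1 + L))) ^ 2 :=
        mul_le_mul_of_nonneg_left h2 (by positivity)
      have h12 : 2 * L ^ 2 * en v x * (1 / (4 * (1 + L))) ^ 2 ≤ 1 / 8 * en v x := by
        have := mul_le_mul_of_nonneg_right hδ1 h3
        nlinarith
      linarith
    · intro x hx
      have h1 := hang x hx.1 (Jm 0 x) (Jm 0 (Jm 0 x))
      rw [← nc2_uthth hU (hv.mono fun x hx => hx.1) hx] at h1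
      have h2 := hδ x hx
      have h3 := nc2_en_nonneg v x
      have h4 : 0 ≤ rho x ^ 2 := sq_nonneg _
      have h5 : fderiv ℝ v x (Jm 0 x) = uth v x := rfl
      rw [h5] at h1
      have h6 : 0 ≤ ‖uth v x‖ ^ 2 := sq_nonneg _
      have h7 : 0 ≤ ‖uthth v x‖ := norm_nonneg _
      have h8 : 1 * (1 + Real.sqrt (en v x)) * ‖uthth v x‖ ≤ τ x * ‖uthth v x‖ := by
        refine mul_le_mul_of_nonneg_right ?_ h7
        simp only [hτ]
        have := Real.sqrt_nonneg (en v x)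
        nlinarith
      calc |⟪uthth v x, lap v x⟫| * rho x ^ 2
          ≤ (L * ‖uth v x‖ ^ 2 * en v x + τ x * ‖uthth v x‖) * rho x ^ 2 :=
            mul_le_mul_of_nonneg_right (h1.trans (by linarith)) h4
        _ = L * ‖uth v x‖ ^ 2 * (rho x ^ 2 * en v x) + rho x ^ 2 * (τ x * ‖uthth v x‖) := by ring
        _ ≤ L * ‖uth v x‖ ^ 2 * (1 / (4 * (1 + L))) ^ 2 + rho x ^ 2 * (τ x * ‖uthth v x‖) := by
            gcongr
        _ ≤ 1 / 8 * ‖uth v x‖ ^ 2 + rho x ^ 2 * (τ x * ‖uthth v x‖) := by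
            have := mul_le_mul_of_nonneg_right hδ2 h6
            nlinarith
  have hCut : CutV 0 (neck r) r C₀ (fun x => W (rho x, zp x)) (fun _ => 1) := by
    have hg : ∀ x : E (0 + 2), gsq (fun _ : E (0 + 2) => (1 : ℝ)) x = 0 := by
      intro x
      unfold gsq nsq
      simp
    refine ⟨contDiffOn_const, fun x => ⟨zero_le_one, le_rfl⟩, fun θ x => rfl, fun x _ => ?_,
      fun x _ _ h => absurd h (lt_irrefl _), fun x h1 h2 h3 => ?_⟩
    · rw [hg, mul_zero]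
      exact hC₀
    · exact (h3 ⟨closedBall_subset_ball (by norm_num) h1, h2⟩).elim
  have hmain := hE r hrC (fun z => ha0) (fun z => by rw [hrf, norm_zero]) η _ hW (neck r) _ hCut m v
    (fderiv ℝ v) τ hTen
  have hint := hI r W hrC.continuous (fun z => ⟨ha0, ha1⟩) hProf.W_C1.continuousOn hProf.W_pos hWb
  have hAle : K₃ * ∫ x in ball (0 : E (0 + 2)) 2, (nsq (fderiv ℝ v x) + τ x ^ 2) ≤ A := by
    rw [hA]
    refine mul_le_mul_of_nonneg_left ?_ hK₃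
    have h1 : ∫ x in ball (0 : E (0 + 2)) 2, (nsq (fderiv ℝ v x) + τ x ^ 2) =
        (∫ x in ball (0 : E (0 + 2)) 2, en v x) + ∫ x in ball (0 : E (0 + 2)) 2, τ x ^ 2 :=
      integral_add hie hiτ
    have h2 : ∫ x in ball (0 : E (0 + 2)) 2, τ x ^ 2 ≤
        ∫ x in ball (0 : E (0 + 2)) 2, 2 * T₁ ^ 2 * (1 + en v x) :=
      integral_mono hiτ hi1 hτsq
    have h3 : ∫ x in ball (0 : E (0 + 2)) 2, 2 * T₁ ^ 2 * (1 + en v x) =
        2 * T₁ ^ 2 * (Vb + ∫ x in ball (0 : E (0 + 2)) 2, en v x) := by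
      rw [integral_const_mul, integral_add (integrable_const (1 : ℝ)) hie, integral_const,
        smul_eq_mul, mul_one, hVb, Measure.real, Measure.restrict_apply_univ]
    rw [h1]
    have h4 : 2 * T₁ ^ 2 * (Vb + ∫ x in ball (0 : E (0 + 2)) 2, en v x) ≤
        2 * T₁ ^ 2 * (Vb + Λ) := by gcongr
    linarith
  have hmain' : ∫⁻ x in {x : E (0 + 2) | x ∈ ball (0 : E (0 + 2)) 1 ∧ 2 * r (zp x) < rho x},
      ENNReal.ofReal (rho x ^ 2 * W (rho x, zp x) * hsq v x) ≤ ENNReal.ofReal A := by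
    refine le_trans (le_of_eq ?_) (hmain.trans (ENNReal.ofReal_le_ofReal hAle))
    refine lintegral_congr fun x => ?_
    congr 1
    ring
  have hfinal := pf_CSF 0 m r (fun x => W (rho x, zp x)) v A C₂ hA0 hC₂ hrC.continuous
    (fun z => ha0) (hv.mono fun x hx => hx.1) hW.w_C1.continuousOn hW.w_pos hmain' hint
  have hset : (ball (0 : E (0 + 2)) 1 \ closedBall 0 (2 * a)) =
      {x : E (0 + 2) | x ∈ ball (0 : E (0 + 2)) 1 ∧ 2 * r (zp x) < rho x} := by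
    ext x
    rw [Set.mem_sdiff, mem_closedBall_zero_iff, not_le, ← nc2_rho]
    rfl
  have hSo : MeasurableSet {x : E (0 + 2) | x ∈ ball (0 : E (0 + 2)) 1 ∧
      2 * r (zp x) < rho x} := by
    rw [← hset]
    exact measurableSet_ball.diff isClosed_closedBall.measurableSet
  unfold hInt
  rw [hset]
  refine le_trans (le_of_eq ?_) hfinal
  refine setLIntegral_congr_fun hSo fun x hx => ?_
  have hxb : x ∈ ball (0 : E (0 + 2)) 2 := ball_subset_ball (by norm_num) hx.1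
  change ENNReal.ofReal (Real.sqrt (hsq v x)) = ENNReal.ofReal (hessNorm v x)
  rw [hess_eq isOpen_ball hv hxb]

theorem pf_NC2 (hLA3 : T_LA3) (hSTT : T_STT) (hPR1 : T_PR1) (hPRW : T_PRW) (hIN1 : T_IN1)
    (hEA3 : T_EA3) : T_NC2 := by
  intro m L hL
  obtain ⟨δ, hδ, h⟩ := nc2_core hLA3 hSTT hPR1 hPRW hIN1 hEA3 m L hL
  refine ⟨δ, hδ, fun Λ hΛ => ?_⟩
  obtain ⟨K, hK, h'⟩ := h Λ hΛ
  exact ⟨K, hK, fun v a hTM he ha0 ha1 hn =>
    h' v a hTM.smooth hTM.lapb hTM.tan hTM.ang he ha0 ha1 hn⟩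

end Pool.Agent.H78.AX
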